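import Pool.Agent.MP_fa04ef_co.Mg.Main

namespace Pool.Agent.Results.MP_fa04ef_co.FourthFails

open Pool.Agent.MP_fa04ef_co

theorem result : ∀ n : ℕ, 600 ≤ n →
    a {1, 2, 3} ![2, 3, 1] n < a {1, 2, 3} ![3, 2, 1] n := main

end Pool.Agent.Results.MP_fa04ef_co.FourthFails
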